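import Pool.Agent.Helper89.Vol5.Goals

/-!
Project V58 (MP_cd13d2_co), packet ALL: the covering inequality passes from generic tuples to all
tuples (port of `Pool.Agent.Helper90.Vol4.ALL`).
-/

set_option autoImplicit false

namespace Pool.Agent.Helper22.Vol5.PkALL

open MeasureTheory Set Filter Topology Pool.Agent.Helper86.Poly Pool.Agent.Helper89.Vol5

theorem cont_Dt (σ : Equiv.Perm (Fin 8)) (i j : Fin 8) :
    Continuous (fun y : Fin 8 → E 5 => Dt (y ∘ σ) i j) := by
  unfold Dt W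
  apply Continuous.matrix_det
  apply continuous_matrix
  intro k l
  have hc : ∀ m : Fin 5, Continuous (fun y : Fin 8 → E 5 => (y ∘ σ) k m) := by
    intro m
    have h1 : Continuous (fun y : Fin 8 → E 5 => y (σ k)) := continuous_apply _
    have h2 : Continuous (fun z : E 5 => z m) := by fun_prop
    exact h2.comp h1
  fin_cases l
  · simpa using continuous_const
  · simpa using hc 0
  · simpa using hc 1
  · simpa using hc 2
  · simpa using hc 3
  · simpa using hc 4
  · simpa using continuous_const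
  · simpa using continuous_const

theorem cont_T (σ : Equiv.Perm (Fin 8)) (c : ℝ) (s : Fin 8 → ℝ) :
    Continuous (fun y : Fin 8 → E 5 => T (y ∘ σ) c s) := by
  unfold T
  apply continuous_finsetSum
  intro m _
  apply continuous_finsetSum
  intro n _
  by_cases h : n < m ∧ 1 ≤ n ∧ s m = 1 ∧ s n = -1
  · simp only [if_pos h]
    exact continuous_const.mul (cont_Dt σ m n)
  · simp only [if_neg h]
    exact continuous_const

/-- the triples -/
def S : Set (Equiv.Perm (Fin 8) × ℝ × (Fin 8 → ℝ)) := {z | Pat z.2.1 z.2.2}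

theorem S_fin : S.Finite := by
  have h1 : ({1, -1} : Set ℝ).Finite := Set.toFinite _
  have h2 : ({s : Fin 8 → ℝ | s ∈ PLa} ∪ {s : Fin 8 → ℝ | s ∈ PLb}).Finite :=
    PLa.finite_toSet.union PLb.finite_toSet
  refine Set.Finite.subset ((Set.finite_univ (α := Equiv.Perm (Fin 8))).prod (h1.prod h2)) ?_
  rintro ⟨σ, c, s⟩ ⟨hc, hs⟩
  refine ⟨mem_univ _, ?_, hs⟩
  simpa using hc

theorem thm (hG : G_GEN) (hD : G_DENS) (hL : Pool.Agent.Helper89.Vol.G_LSC) : G_ALL := by
  intro x
  by_contra hcon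
  have hlt : ∀ z ∈ S, ENNReal.ofReal (T (x ∘ z.1) z.2.1 z.2.2) <
      120 * volume (convexHull ℝ (range x)) := by
    intro z hz
    by_contra h
    exact hcon ⟨z.1, z.2.1, z.2.2, hz, not_lt.mp h⟩
  have hmem : ((1 : Equiv.Perm (Fin 8)), (1 : ℝ), (![1, 1, 1, 1, 1, 1, 1, 1] : Fin 8 → ℝ)) ∈ S :=
    ⟨Or.inl rfl, Or.inl List.mem_cons_self⟩
  have hpos : (⊥ : ENNReal) < 120 * volume (convexHull ℝ (range x)) :=
    lt_of_le_of_lt bot_le (hlt _ hmem)
  have hsup : S_fin.toFinset.sup (fun z => ENNReal.ofReal (T (x ∘ z.1) z.2.1 z.2.2)) <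
      120 * volume (convexHull ℝ (range x)) := by
    rw [Finset.sup_lt_iff hpos]
    intro z hz
    exact hlt z (S_fin.mem_toFinset.mp hz)
  obtain ⟨r, hr1, hr2⟩ := exists_between hsup
  have hr : r / 120 < volume (convexHull ℝ (range x)) := by
    rw [ENNReal.div_lt_iff (Or.inl (by norm_num)) (Or.inl (by norm_num)), mul_comm]
    exact hr2
  obtain ⟨δ, hδ, hq⟩ := hL 5 8 x _ hr
  have hev : ∀ᶠ y in 𝓝 x, ∀ z ∈ S, ENNReal.ofReal (T (y ∘ z.1) z.2.1 z.2.2) < r := by
    rw [Filter.eventually_all_finite S_fin]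
    intro z hz
    have h1 : Continuous (fun y : Fin 8 → E 5 => ENNReal.ofReal (T (y ∘ z.1) z.2.1 z.2.2)) :=
      ENNReal.continuous_ofReal.comp (cont_T z.1 z.2.1 z.2.2)
    have h2 : ENNReal.ofReal (T (x ∘ z.1) z.2.1 z.2.2) < r :=
      lt_of_le_of_lt (Finset.le_sup (f := fun z : Equiv.Perm (Fin 8) × ℝ × (Fin 8 → ℝ) =>
        ENNReal.ofReal (T (x ∘ z.1) z.2.1 z.2.2)) (S_fin.mem_toFinset.mpr hz)) hr1
    exact h1.continuousAt.eventually (gt_mem_nhds h2)
  obtain ⟨ε, hε, hball⟩ := Metric.eventually_nhds_iff.mp hev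
  obtain ⟨y, hy, hyD⟩ := hD x (min δ ε) (lt_min hδ hε)
  have hVy := hq y (fun i => (hy i).trans_le (min_le_left _ _))
  have hdist : dist y x < ε := by
    rw [dist_pi_lt_iff hε]
    intro i
    rw [dist_comm]
    exact (hy i).trans_le (min_le_right _ _)
  have hall := hball hdist
  obtain ⟨σ, c, s, hP, hle⟩ := hG y hyD
  have h3 := hall (σ, c, s) hP
  have h4 : 120 * volume (convexHull ℝ (range y)) < r := lt_of_le_of_lt hle h3
  have h5 : r < 120 * volume (convexHull ℝ (range y)) := by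
    rw [ENNReal.div_lt_iff (Or.inl (by norm_num)) (Or.inl (by norm_num)), mul_comm] at hVy
    exact hVy
  exact lt_irrefl _ (h4.trans h5)

end Pool.Agent.Helper22.Vol5.PkALL
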